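import Pool.Agent.U374.St.ArrQ
set_option autoImplicit false

/-!
Beilinson's conjecture for `K_2` of curves over number fields: on the curves
`λ z^b ∏_e (z^(u_e) - c_e)^(m_e + 1) = 1`, `0 ≤ e < r`, in the torus with the coordinates `z_0, z_1`,
where the `c_e` are roots of unity and the exponents `u_e ∈ ℤ²` are pairwise linearly independent,
there are classes in `K_2`, attached to the pairs `0 < j < k < r`, which are integral for all
algebraic integers `λ ≠ 0`, and, if the common zeros of two of the binomials are no zeros of the
others, have linearly independent regulators for all but finitely many of them.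
-/

namespace Pool.Agent.Results.MP_0a9c3b_nt.BinomialArrangements

open Pool.Agent.U374.St

/-- Let `K` be a number field, let `u_e = w e` in `ℤ²`, `0 ≤ e < r`, be pairwise linearly independent and
different from zero, let `c_e` be roots of unity in `K`, `m_e ≥ 0` integers and `b ∈ ℤ²`. Let `X` be
the curve `λ z^b ∏_e (z^(u_e) - c_e)^(m_e + 1) = 1` in the torus `z_0 z_1 ≠ 0`. In its coordinate
ring the binomials `P_e = z^(u_e) - c_e` and the variables `z_0`, `z_1` are units. There are integers
`β_t(i, j)` for all pairs `t = (j, k)` of indices with `0 < j < k < r`, where `i`, `j` run through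
the `P_e` and `z_0`, `z_1`, and which do not depend on the `c_e`, `m_e`, `b` and `λ`, such that the
classes `∑ β_t(i, j) {P_i, P_j}` in `K_2` of the coordinate ring (with rational coefficients) have
the following properties.

(1) For all algebraic integers `λ ≠ 0` of `K` the images of these classes in the Milnor K-theory of
all fields `L` with a homomorphism from the coordinate ring are unramified (`Unram`).

Let `S` be a set of pairs `(j, k)`, such that for all `(j, k)` in `S` and all `e` different from `j`
and `k` one has `c_e^(u_j ∧ u_k) c_j^(u_k ∧ u_e) c_k^(u_e ∧ u_j) ≠ 1` (`Free`). (For all pairs, if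
this is so for all triples of indices.)

(2) For every complex embedding `σ` of `K` there is a `C` such that for all `λ` in `K` with
`|σ λ| ≥ C` there are loops `Γ_t`, `t` in `S`, in `X(ℂ)` (over `σ`), such that the determinant of
the regulators of the classes of the `β_t`, `t` in `S`, on these loops is not zero (`HasDet`).

(3) For all but finitely many algebraic integers `λ` of `K` there are such loops for a complex
embedding `σ` of `K`.

(4) If there are such loops, the classes of the `β_t`, `t` in `S`, are linearly independent. -/
theorem result.{u, v} (K : Type u) [Field K] [NumberField K] (r : ℕ) (w : Fin r → Fin 2 → ℤ)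
    (hne : ∀ e, w e ≠ 0) (hw : ∀ e e', e ≠ e' → wdg (w e) (w e') ≠ 0) :
    ∃ β : Pairs r → Fin r ⊕ Fin 2 → Fin r ⊕ Fin 2 → ℤ,
      ∀ c : Fin r → K, (∀ e, Root (c e)) → ∀ (m : Fin r → ℕ) (b : Fin 2 → ℤ),
        (∀ (t : Pairs r) (lam : K), lam ≠ 0 → IsIntegral ℤ lam →
          Arr.Unram.{u, v} (binArr w c m b) lam (β t)) ∧
        ∀ S : Finset (Pairs r),
          (∀ t ∈ S, ∀ e, e ≠ t.1.1 → e ≠ t.1.2 → Free w c e t.1.1 t.1.2) →
          (∀ σ : K →+* ℂ, ∃ C : ℝ, ∀ lam : K, C ≤ ‖σ lam‖ →
            (binArr w c m b).HasDet σ lam fun t : S => β t) ∧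
          {lam : K | IsIntegral ℤ lam ∧
            ¬ ∃ σ : K →+* ℂ, (binArr w c m b).HasDet σ lam fun t : S => β t}.Finite ∧
          ∀ (σ : K →+* ℂ) (lam : K), ((binArr w c m b).HasDet σ lam fun t : S => β t) →
            LinearIndependent ℚ fun t : S => (binArr w c m b).cls lam (β t) :=
  exists_classes_uniform hne hw

end Pool.Agent.Results.MP_0a9c3b_nt.BinomialArrangements
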