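import Pool.Agent.U374.St.ArrB
set_option autoImplicit false

/-!
Beilinson's conjecture for `K_2` of curves over number fields: on the curves
`λ z^b ∏_e P_e(z)^(m_e + 1) = 1` in the torus with the coordinates `z_0, z_1`, where the `P_e` belong
to two groups of Laurent polynomials with the same Newton polygon, with edges with binomials as
polynomials, and with arbitrary integral coefficients inside, the classes
`{P_i / P_(i0), P_j / P_(j0)}` for `i` in the first and `j` in the second group are integral for all
algebraic integers `λ ≠ 0`, and those for which `P_i = 0` and `P_j = 0` have an intersection point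
which is not on the other curves have linearly independent regulators for all but finitely many `λ`.
-/

namespace Pool.Agent.Results.MP_0a9c3b_nt.GridPencils

open Pool.Agent.TH826.MK

open Pool.Agent.U374.St

/-- Let `K` be a number field, and let `P_e`, `0 ≤ e < r`, be Laurent polynomials in `z_0, z_1` with
coefficients in the ring of integers of `K`, such that the polynomials of all proper faces of their
Newton polygons are monomials `ζ z^n` or binomials `ζ z^n + ζ' z^n'` with roots of unity `ζ`, `ζ'`
(`Admissible`); there is no condition on the coefficients of the monomials in the interior of the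
polygons. The `P_e` belong to two groups (`s e = false` and `s e = true`), such that for every
functional `a ≠ 0` any two polynomials of the same group have a common exponent in the faces on which
`a` is maximal (this is so if they have the same Newton polygon), and for two polynomials of
different groups at least one of these two faces is a vertex (`Grid s`). Let `b ∈ ℤ²`, `m_e ≥ 0`, and
let `X` be the curve `λ z^b ∏_e P_e(z)^(m_e + 1) = 1` in the torus `z_0 z_1 ≠ 0`, with the
coordinate ring `A.Ring λ`. Let `i0` be an index in the first group and `j0` one in the second. For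
`i ≠ i0` in the first group and `j ≠ j0` in the second (`GPairs`) let the class of `(i, j)` be
`{P_i, P_j} - {P_i, P_(j0)} - {P_(i0), P_j} + {P_(i0), P_(j0)}` (`gridc`).

(0) The class is the symbol `{P_i / P_(i0), P_j / P_(j0)}`.

(1) For all algebraic integers `λ ≠ 0` of `K` the images of these classes in the Milnor K-theory of
all fields `L` with a homomorphism `A.Ring λ → L` are unramified.

Let `S` be a set of such pairs `(i, j)`.

(2) Let `σ` be a complex embedding of `K`, such that for all `(i, j)` in `S` the curves `P_i = 0` and
`P_j = 0` cross in a point of the torus where the other `P_e` are not zero (`HasNode`). Then there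
is a `C` such that for all `λ` in `K` with `|σ λ| ≥ C` there are loops `Γ_t`, `t` in `S`, in
`X(ℂ)` (over `σ`), such that the determinant of the regulators of the classes of the `t` in `S` on
these loops is not zero (`HasDet`).

(3) If this holds for all complex embeddings `σ` of `K`, then for all but finitely many algebraic
integers `λ` of `K` there are such loops for some `σ`.

(4) If there are such loops, the classes of the `t` in `S` are linearly independent. -/
theorem result.{u, v} (K : Type u) [Field K] [NumberField K] (r : ℕ) (A : Arr K r)
    (hA : A.Admissible) (s : Fin r → Bool) (hG : A.Grid s) (i0 j0 : Fin r) (h1 : s i0 = false)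
    (h2 : s j0 = true) :
    (∀ (t : GPairs s i0 j0) (lam : K), A.cls lam (gridc i0 j0 t.1.1 t.1.2) =
      symb ![A.unit lam (Sum.inl t.1.1) / A.unit lam (Sum.inl i0),
        A.unit lam (Sum.inl t.1.2) / A.unit lam (Sum.inl j0)]) ∧
    (∀ (t : GPairs s i0 j0) (lam : K), lam ≠ 0 → IsIntegral ℤ lam →
      Arr.Unram.{u, v} A lam (gridc i0 j0 t.1.1 t.1.2)) ∧
    ∀ S : Finset (GPairs s i0 j0),
      (∀ σ : K →+* ℂ, (∀ t ∈ S, A.HasNode σ t.1.1 t.1.2) → ∃ C : ℝ, ∀ lam : K, C ≤ ‖σ lam‖ →
        A.HasDet σ lam fun t : S => gridc i0 j0 t.1.1.1 t.1.1.2) ∧
      ((∀ σ : K →+* ℂ, ∀ t ∈ S, A.HasNode σ t.1.1 t.1.2) → {lam : K | IsIntegral ℤ lam ∧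
        ¬ ∃ σ : K →+* ℂ, A.HasDet σ lam fun t : S => gridc i0 j0 t.1.1.1 t.1.1.2}.Finite) ∧
      ∀ (σ : K →+* ℂ) (lam : K),
        (A.HasDet σ lam fun t : S => gridc i0 j0 t.1.1.1 t.1.1.2) →
        LinearIndependent ℚ fun t : S => A.cls lam (gridc i0 j0 t.1.1.1 t.1.1.2) :=
  ⟨fun t lam => cls_gridc lam i0 j0 t.1.1 t.1.2, fun t _ h0 hint _ _ f => cls_unramified hA (hG.adm hA h1 h2 t.2.1.1 t.2.2.1 t.2.1.2 t.2.2.2)
    h0 hint f, fun S => ⟨fun σ hS => exists_hasDet (nodes_gridc h1 h2 σ S hS), fun hS =>
      finite_exceptionsA fun σ => nodes_gridc h1 h2 σ S (hS σ), fun _ _ h => h.linearIndependent⟩⟩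

end Pool.Agent.Results.MP_0a9c3b_nt.GridPencils
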