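import Pool.Agent.U759.TQ.Nm
set_option autoImplicit false

/-!
`K_2` of curves over number fields with infinitely many units: the curves `φ_0(x) φ_1(z) = λ`, where
`φ_0, φ_1` are rational functions and `λ` is a unit which is large at a place `σ` and small at a place
`τ` (for example a large power of any unit of infinite order).

There are two kinds of functions: functions `A_(l,j) / B_(l,j)`, `1 ≤ j ≤ k_l`, whose zeros and poles are
poles of `φ_l` and whose values at the zeros of `φ_l` are roots of unity, and functions
`A'_(l,j) / B'_(l,j)`, `1 ≤ j ≤ k'_l`, with zeros and poles at the zeros of `φ_l` and with roots of unity as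
values at the poles of `φ_l`. The `k_0 k_1 + k'_0 k'_1` symbols of two functions of the same kind are
unramified at all discrete valuations, and their regulators on loops over `σ` and over `τ` are linearly
independent; the curve is smooth and irreducible.

Example: `φ_l = ∏_i (z - α_(l,i)) ^ a_(l,i) / ∏_j (z - β_(l,j)) ^ b_(l,j)`, where all differences
`α_(l,i) - β_(l,j)` are roots of unity, such as `(z^q - 1) / z^p`, with the functions `z - β_(l,j)` and
`(z - α_(l,i)) / (z - α_(l,0))`.

The proof. Unramified: let `v` be a discrete valuation; since `λ` is a unit, `v(φ_0) = - v(φ_1)`, and if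
an entry is not a unit at `v`, then a power of the other one is a one-unit. Regulators: on a loop over
`σ` around a pole of `φ_1` the symbols of the first kind have the regulators `δ c log |λ| + O(1)`, and
those of the second kind are bounded; over `τ` it is the other way round. Irreducible: the branch near
a simple pole of `φ_0` can be continued along paths which connect the zeros of `φ_1`.
-/

namespace Pool.Agent.Results.MP_0a9c3b_nt.TwoKindsOfClasses

open Pool.Agent.U759.TQ

/-- Let `K` be a number field. For `l = 0, 1` let `φ_l = N_l / M_l` be a rational function with the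
functions `A_(l,j) / B_(l,j)`, `1 ≤ j ≤ k_l`, and `A'_(l,j) / B'_(l,j)`, `1 ≤ j ≤ k'_l`, where
`k_l, k'_l ≥ 1`, with the conditions `Dat2.Ok`: all polynomials are monic and have algebraic integers as
coefficients; the zeros of the `A_(l,j)` and `B_(l,j)` are zeros of `M_l`, the polynomials `N_l` and
`B_(l,j)` generate the unit ideal over the algebraic integers, `N_l` divides a power of
`A_(l,j)^m - B_(l,j)^m` for some `m ≥ 1`, and `deg M_l < deg N_l`, or `deg A_(l,j) = deg B_(l,j)` for all
`j`; for fixed `l` the `A_(l,j)` are not constant, pairwise coprime and coprime to the `B_(l,i)`, and the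
zeros of the `A_(0,j)` are simple zeros of `M_0`; and the same holds for `M_l, N_l, A'_(l,j), B'_(l,j)` in
the place of `N_l, M_l, A_(l,j), B_(l,j)`.

There is a constant `C` such that for all complex embeddings `σ, τ` of `K` and all units `λ` of the ring
of integers with `|σ λ| ≥ C` and `|τ λ| ≤ 1 / C` the following (`Concl`) holds for the curve
`N_0(x) N_1(z) = λ M_0(x) M_1(z)`: its open part, on which `M_0(x) M_1(z)` and the `A, B, A', B'` do not
vanish, is not empty; its coordinate ring is a domain if `N_l, M_l` are coprime and
`deg M_1 ≤ deg N_1`; it is smooth at its complex points over `σ` and `τ` with `M_0(x) M_1(z) ≠ 0`; the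
`k_0 k_1 + k'_0 k'_1` symbols `{A_(0,i)/B_(0,i) (x), A_(1,j)/B_(1,j) (z)}` and
`{A'_(0,i)/B'_(0,i) (x), A'_(1,j)/B'_(1,j) (z)}` have unramified images in `K_2 (L) ⊗ ℚ` for all fields `L`
with a homomorphism from the coordinate ring of the open part; and there are `k_0 k_1` loops over `σ` and
`k'_0 k'_1` loops over `τ` in the open part such that the determinant of the regulators of the symbols on
the loops does not vanish.

If `e` is a unit which is not a root of unity, there are `σ` and `τ` such that all this holds for
`λ = e^m` for all large `m`.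

The conditions are satisfied by `N_l = ∏_{0 ≤ i ≤ r_l} (z - α_(l,i)) ^ a_(l,i)`,
`M_l = ∏_{1 ≤ j ≤ s_l} (z - β_(l,j)) ^ b_(l,j)` with the functions `z - β_(l,j)` and
`(z - α_(l,i)) / (z - α_(l,0))`, `1 ≤ i ≤ r_l`, if `deg M_l < deg N_l`, the `α_(l,i)` and `β_(l,j)` are
different algebraic integers of `K`, all exponents are positive, those for `l = 0` are `1`, and all
differences `α_(l,i) - β_(l,j)` are roots of unity; there are `s_0 s_1 + r_0 r_1` symbols. In this case
the coordinate ring is a domain. -/
theorem result.{u, v} (K : Type u) [Field K] [NumberField K] :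
    (∀ (k k' : Fin 2 → ℕ) (E : Dat2 K 1 k k'), (∀ l, k l ≠ 0) → (∀ l, k' l ≠ 0) → E.Ok →
      LargeUnits.{u, v} E) ∧
    ∀ (r s : Fin 2 → ℕ) (α : ∀ l, Fin (r l + 1) → K) (a : ∀ l, Fin (r l + 1) → ℕ)
      (β : ∀ l, Fin (s l) → K) (b : ∀ l, Fin (s l) → ℕ),
      (∀ l, RootPts (α l) (a l) (β l) (b l)) → (∀ i, a 0 i = 1) → (∀ j, b 0 j = 1) →
        Good (rootDat α a β b) :=
  ⟨fun _ _ _ hk hk' H => largeUnits H hk hk' one_ne_zero,
    fun _ _ _ _ _ _ H ha hb => rootDat_good H ha hb⟩

end Pool.Agent.Results.MP_0a9c3b_nt.TwoKindsOfClasses
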